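import Pool.Agent.Y674.HY.Stm2

/-!
# A nonzero form does not vanish at a large point (HY2-NONV)

Author helper584, for project HY of helper674.
-/

set_option autoImplicit false

namespace Pool.Agent.Y584.HY

open Polynomial NumberField Pool.Agent.Y674.HY

/-! ## the `ℓ¹` norm of a polynomial under an embedding -/

section l1

variable {R : Type} [CommRing R] (σ : R →+* ℂ)

/-- the sum of the absolute values of the coefficients -/
noncomputable def l1 (Q : R[X]) : ℝ := ∑ i ∈ Q.support, ‖σ (Q.coeff i)‖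

theorem l1_eq {Q : R[X]} {s : Finset ℕ} (hs : Q.support ⊆ s) :
    l1 σ Q = ∑ i ∈ s, ‖σ (Q.coeff i)‖ := by
  apply Finset.sum_subset hs
  intro i _ hi
  rw [notMem_support_iff.1 hi, map_zero, norm_zero]

theorem l1_nonneg (Q : R[X]) : 0 ≤ l1 σ Q := Finset.sum_nonneg fun _ _ => norm_nonneg _

theorem coeff_le_l1 (Q : R[X]) (n : ℕ) : ‖σ (Q.coeff n)‖ ≤ l1 σ Q := by
  by_cases hn : n ∈ Q.support
  · exact Finset.single_le_sum (f := fun i => ‖σ (Q.coeff i)‖) (fun _ _ => norm_nonneg _) hn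
  · rw [notMem_support_iff.1 hn, map_zero, norm_zero]
    exact l1_nonneg σ Q

theorem l1_zero : l1 σ (0 : R[X]) = 0 := by
  rw [l1, support_zero, Finset.sum_empty]

theorem l1_add_le (P Q : R[X]) : l1 σ (P + Q) ≤ l1 σ P + l1 σ Q := by
  have h1 : (P + Q).support ⊆ P.support ∪ Q.support := support_add
  rw [l1_eq σ h1, l1_eq σ (Finset.subset_union_left (s₁ := P.support) (s₂ := Q.support)),
    l1_eq σ (Finset.subset_union_right (s₁ := P.support) (s₂ := Q.support)),
    ← Finset.sum_add_distrib]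
  apply Finset.sum_le_sum
  intro i _
  rw [coeff_add, map_add]
  exact norm_add_le _ _

theorem l1_neg (P : R[X]) : l1 σ (-P) = l1 σ P := by
  rw [l1, l1, support_neg]
  apply Finset.sum_congr rfl
  intro i _
  rw [coeff_neg, map_neg, norm_neg]

theorem l1_sum_le {ι : Type} (s : Finset ι) (f : ι → R[X]) :
    l1 σ (∑ i ∈ s, f i) ≤ ∑ i ∈ s, l1 σ (f i) := by
  classical
  induction s using Finset.induction_on with
  | empty => rw [Finset.sum_empty, Finset.sum_empty, l1_zero]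
  | insert a s ha ih =>
    rw [Finset.sum_insert ha, Finset.sum_insert ha]
    exact (l1_add_le σ _ _).trans (by gcongr)

theorem l1_monomial (n : ℕ) (a : R) : l1 σ (monomial n a) ≤ ‖σ a‖ := by
  have h1 : (monomial n a : R[X]).support ⊆ {n} := support_monomial_subset n a
  rw [l1_eq σ h1, Finset.sum_singleton, coeff_monomial, if_pos rfl]

theorem l1_mul_le (P Q : R[X]) : l1 σ (P * Q) ≤ l1 σ P * l1 σ Q := by
  have h1 : l1 σ P * l1 σ Q = ∑ i ∈ P.support, ∑ j ∈ Q.support,
      ‖σ (P.coeff i)‖ * ‖σ (Q.coeff j)‖ := by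
    unfold l1
    rw [Finset.sum_mul_sum]
  rw [h1, mul_eq_sum_sum]
  refine (l1_sum_le σ _ _).trans (Finset.sum_le_sum fun i _ => ?_)
  rw [Polynomial.sum_def]
  refine (l1_sum_le σ _ _).trans (Finset.sum_le_sum fun j _ => ?_)
  refine (l1_monomial σ _ _).trans ?_
  rw [map_mul, norm_mul]

theorem l1_one : l1 σ (1 : R[X]) ≤ 1 := by
  have h1 := l1_monomial σ 0 (1 : R)
  rw [map_one σ, norm_one] at h1
  exact h1

theorem l1_prod_le {ι : Type} (s : Finset ι) (f : ι → R[X]) :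
    l1 σ (∏ i ∈ s, f i) ≤ ∏ i ∈ s, l1 σ (f i) := by
  classical
  induction s using Finset.induction_on with
  | empty => rw [Finset.prod_empty, Finset.prod_empty]; exact l1_one σ
  | insert a s ha ih =>
    rw [Finset.prod_insert ha, Finset.prod_insert ha]
    refine (l1_mul_le σ _ _).trans ?_
    exact mul_le_mul_of_nonneg_left ih (l1_nonneg σ _)

theorem l1_det_le {n : Type} [Fintype n] [DecidableEq n] (M : Matrix n n R[X]) {c : ℝ}
    (hc : ∀ i j, l1 σ (M i j) ≤ c) :
    l1 σ M.det ≤ (Fintype.card n).factorial * c ^ (Fintype.card n) := by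
  rw [Matrix.det_apply]
  refine (l1_sum_le σ _ _).trans ?_
  have h1 : ∀ π ∈ (Finset.univ : Finset (Equiv.Perm n)),
      l1 σ (Equiv.Perm.sign π • ∏ i, M (π i) i) ≤ c ^ (Fintype.card n) := by
    intro π _
    have h2 : l1 σ (∏ i, M (π i) i) ≤ c ^ (Fintype.card n) := by
      refine (l1_prod_le σ _ _).trans ?_
      have h3 : ∏ i : n, l1 σ (M (π i) i) ≤ ∏ _i : n, c :=
        Finset.prod_le_prod (fun i _ => l1_nonneg σ _) (fun i _ => hc _ _)
      rwa [Finset.prod_const, Finset.card_univ] at h3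
    rcases Int.units_eq_one_or (Equiv.Perm.sign π) with h | h
    · rw [h, one_smul]; exact h2
    · rw [h, Units.neg_smul, one_smul, l1_neg]; exact h2
  refine (Finset.sum_le_card_nsmul _ _ _ h1).trans (le_of_eq ?_)
  rw [Finset.card_univ, Fintype.card_perm, nsmul_eq_mul]

end l1

/-! ## even sets -/

theorem even_sd {e : ℕ} (I J : Ev e) : Even (symmDiff I.1 J.1).card := by
  have h1 := Finset.card_sdiff_add_card_inter I.1 J.1
  have h2 := Finset.card_sdiff_add_card_inter J.1 I.1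
  have h3 : (symmDiff I.1 J.1).card = (I.1 \ J.1).card + (J.1 \ I.1).card := by
    rw [symmDiff_def, Finset.sup_eq_union, Finset.card_union_of_disjoint disjoint_sdiff_sdiff]
  rw [Finset.inter_comm] at h2
  obtain ⟨a, ha⟩ := I.2
  obtain ⟨b, hb⟩ := J.2
  rw [h3, Nat.even_iff]
  omega

/-- symmetric difference -/
def sd {e : ℕ} (I J : Ev e) : Ev e := ⟨symmDiff I.1 J.1, even_sd I J⟩

theorem sd_sd {e : ℕ} (I J : Ev e) : sd I (sd I J) = J := by
  apply Subtype.ext
  exact symmDiff_symmDiff_cancel_left I.1 J.1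

theorem prod_sd {A : Type} [CommRing A] {e : ℕ} (T : Fin e → A) (I J : Finset (Fin e)) :
    (∏ i ∈ symmDiff I J, T i) * ∏ i ∈ I, T i = (∏ i ∈ J, T i) * ∏ i ∈ I \ J, T i ^ 2 := by
  rw [symmDiff_def, Finset.sup_eq_union, Finset.prod_union disjoint_sdiff_sdiff,
    ← Finset.prod_inter_mul_prod_sdiff I J T, ← Finset.prod_inter_mul_prod_sdiff J I T,
    Finset.prod_pow, Finset.inter_comm J I]
  ring

theorem key {A : Type} [CommRing A] {e : ℕ} (T u : Fin e → A) (hT : ∀ i, T i ^ 2 = u i)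
    (a : Ev e → A) (I : Ev e) :
    ∑ J : Ev e, (∏ i ∈ J.1, T i) * (a (sd I J) * ∏ i ∈ I.1 \ J.1, u i) =
      (∑ J : Ev e, a J * ∏ i ∈ J.1, T i) * ∏ i ∈ I.1, T i := by
  rw [Finset.sum_mul]
  refine Fintype.sum_equiv (Function.Involutive.toPerm (sd I) (sd_sd I)) _ _ ?_
  intro J
  change _ = a (sd I J) * (∏ i ∈ symmDiff I.1 J.1, T i) * ∏ i ∈ I.1, T i
  rw [mul_assoc, prod_sd]
  simp only [hT]
  ring

/-! ## the matrix -/

section mat

variable {R : Type} [CommRing R] {e : ℕ} (k : ℕ) (z : Fin e → R) (P : Ev e → R[X])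

/-- the reversed polynomial -/
noncomputable def pp (Q : R[X]) : R[X] := ∑ j ∈ Finset.range (k + 1), C (Q.coeff j) * X ^ (k - j)

theorem coeff_pp (Q : R[X]) {j : ℕ} (hj : j ≤ k) : (pp k Q).coeff (k - j) = Q.coeff j := by
  rw [pp, finsetSum_coeff, Finset.sum_eq_single j]
  · rw [coeff_C_mul, coeff_X_pow, if_pos rfl, mul_one]
  · intro i hi hij
    rw [Finset.mem_range] at hi
    rw [coeff_C_mul, coeff_X_pow, if_neg (by omega), mul_zero]
  · intro h
    exact absurd (Finset.mem_range.2 (by omega)) h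

theorem pp_eq_zero {Q : R[X]} (hQ : Q.natDegree ≤ k) (h : pp k Q = 0) : Q = 0 := by
  ext j
  by_cases hj : j ≤ k
  · rw [← coeff_pp k Q hj, h, coeff_zero, coeff_zero]
  · rw [coeff_eq_zero_of_natDegree_lt (by omega), coeff_zero]

/-- the matrix of the multiplication by the form -/
noncomputable def MM : Matrix (Ev e) (Ev e) R[X] := fun J I =>
  pp k (P (sd I J)) * ∏ i ∈ I.1 \ J.1, (X - C (4 * z i))

theorem vec_MM {A : Type} [CommRing A] (φ : R[X] →+* A) (T : Fin e → A)
    (hT : ∀ i, T i ^ 2 = φ (X - C (4 * z i))) (I : Ev e) :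
    ∑ J : Ev e, (∏ i ∈ J.1, T i) * φ (MM k z P J I) =
      (∑ J : Ev e, φ (pp k (P J)) * ∏ i ∈ J.1, T i) * ∏ i ∈ I.1, T i := by
  rw [← key T _ hT (fun J => φ (pp k (P J))) I]
  apply Finset.sum_congr rfl
  intro J _
  rw [MM, map_mul, map_prod]

theorem val_eq (V : ℤ) (s : Fin e → R) :
    ∑ J : Ev e, (evalRingHom (V : R)) (pp k (P J)) * ∏ i ∈ J.1, s i = val k V s P := by
  rw [val]
  apply Finset.sum_congr rfl
  intro J _
  congr 1
  rw [pp, map_sum]
  apply Finset.sum_congr rfl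
  intro j _
  simp

theorem eval_det [IsDomain R] (V : ℤ) (s : Fin e → R) (hs : ∀ i, s i ^ 2 = (V : R) - 4 * z i)
    (hv : val k V s P = 0) : (MM k z P).det.eval (V : R) = 0 := by
  have h1 : (MM k z P).det.eval (V : R) = ((evalRingHom (V : R)).mapMatrix (MM k z P)).det := by
    rw [← RingHom.map_det]; rfl
  rw [h1, ← Matrix.exists_vecMul_eq_zero_iff]
  refine ⟨fun J => ∏ i ∈ J.1, s i, ?_, ?_⟩
  · intro h
    have h2 := congrFun h (⟨∅, by simp⟩ : Ev e)
    simp at h2
  · funext I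
    have h2 := vec_MM k z P (evalRingHom (V : R)) s (by
      intro i
      rw [hs i]
      simp) I
    rw [val_eq, hv, zero_mul] at h2
    exact h2

theorem l1_entry (σ : R →+* ℂ) {B W : ℝ} (hB : 1 ≤ B) (hz : ∀ i, ‖σ (z i)‖ ≤ B)
    (hP : ∀ (I : Ev e) (j : ℕ), ‖σ ((P I).coeff j)‖ ≤ W) (hW : 1 ≤ W) (J I : Ev e) :
    l1 σ (MM k z P J I) ≤ ((k + 1) * W) * (5 * B) ^ e := by
  rw [MM]
  refine (l1_mul_le σ _ _).trans ?_
  apply mul_le_mul
  · rw [pp]
    refine (l1_sum_le σ _ _).trans ?_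
    have h1 : ∀ j ∈ Finset.range (k + 1), l1 σ (C ((P (sd I J)).coeff j) * X ^ (k - j)) ≤ W := by
      intro j _
      rw [C_mul_X_pow_eq_monomial]
      exact (l1_monomial σ _ _).trans (hP _ _)
    refine (Finset.sum_le_card_nsmul _ _ _ h1).trans (le_of_eq ?_)
    rw [Finset.card_range, nsmul_eq_mul]
    push_cast
    ring
  · refine (l1_prod_le σ _ _).trans ?_
    have h1 : ∀ i ∈ I.1 \ J.1, l1 σ (X - C (4 * z i)) ≤ 5 * B := by
      intro i _
      have h2 : (X - C (4 * z i) : R[X]) = monomial 1 1 + monomial 0 (-(4 * z i)) := by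
        rw [monomial_zero_left, monomial_one_one_eq_X, C_neg, sub_eq_add_neg]
      rw [h2]
      refine (l1_add_le σ _ _).trans ?_
      have h3 := l1_monomial σ 1 (1 : R)
      have h4 := l1_monomial σ 0 (-(4 * z i))
      rw [map_one σ, norm_one] at h3
      rw [map_neg σ, norm_neg, map_mul, norm_mul, map_ofNat] at h4
      have h5 : ‖(4 : ℂ)‖ = 4 := by simp
      rw [h5] at h4
      have h6 := hz i
      linarith
    have h2 : ∏ i ∈ I.1 \ J.1, l1 σ (X - C (4 * z i)) ≤ ∏ _i ∈ I.1 \ J.1, (5 * B) :=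
      Finset.prod_le_prod (fun i _ => l1_nonneg σ _) h1
    refine h2.trans ?_
    rw [Finset.prod_const]
    apply pow_le_pow_right₀ (by linarith)
    exact (Finset.card_le_univ _).trans (le_of_eq (Fintype.card_fin e))
  · exact l1_nonneg σ _
  · positivity

end mat

/-! ## the determinant is not zero -/

theorem det_ne (h : INDP) {L : Type} [Field L] [NumberField L] {e : ℕ} (k : ℕ)
    (z : Fin e → 𝓞 L) (hz : Function.Injective z) (P : Ev e → (𝓞 L)[X]) (hP : ∃ I, P I ≠ 0)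
    (hk : ∀ I, (P I).natDegree ≤ k) : (MM k z P).det ≠ 0 := by
  intro hdet
  let ι : (𝓞 L)[X] →+* RatFunc L :=
    (algebraMap L[X] (RatFunc L)).comp (Polynomial.mapRingHom (algebraMap (𝓞 L) L))
  have hι : Function.Injective ι := by
    apply (RatFunc.algebraMap_injective L).comp
    exact Polynomial.map_injective _ (FaithfulSMul.algebraMap_injective (𝓞 L) L)
  have h1 : (ι.mapMatrix (MM k z P)).det = 0 := by
    rw [← RingHom.map_det, hdet, map_zero]
  rw [← Matrix.exists_mulVec_eq_zero_iff] at h1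
  obtain ⟨v, hv0, hv⟩ := h1
  let E := AlgebraicClosure (RatFunc L)
  let α : RatFunc L →+* E := algebraMap (RatFunc L) E
  have hT : ∀ i, ∃ t : E, t ^ 2 = α (RatFunc.X - RatFunc.C ((4 * z i : 𝓞 L) : L)) :=
    fun i => IsAlgClosed.exists_pow_nat_eq _ (by norm_num)
  choose T hT using hT
  have hinj : Function.Injective (fun i => ((4 * z i : 𝓞 L) : L)) := by
    intro i j hij
    apply hz
    have h2 : (4 * z i : 𝓞 L) = 4 * z j := by
      apply FaithfulSMul.algebraMap_injective (𝓞 L) L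
      exact hij
    exact mul_left_cancel₀ (by norm_num) h2
  have hLI := h L e (fun i => ((4 * z i : 𝓞 L) : L)) hinj E T hT
  have hLI2 : LinearIndependent (RatFunc L) (fun I : Ev e => ∏ i ∈ I.1, T i) :=
    hLI.comp (fun I : Ev e => I.1) Subtype.val_injective
  rw [Fintype.linearIndependent_iff] at hLI2
  have hT' : ∀ i, T i ^ 2 = (α.comp ι) (X - C (4 * z i)) := by
    intro i
    rw [hT i, RingHom.comp_apply]
    congr 1
    change _ = (algebraMap L[X] (RatFunc L)) (Polynomial.mapRingHom (algebraMap (𝓞 L) L) _)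
    rw [map_sub, map_sub, Polynomial.coe_mapRingHom, Polynomial.map_X, Polynomial.map_C,
      RatFunc.algebraMap_X, RatFunc.algebraMap_C]
  -- the product of two forms
  let F : E := ∑ J : Ev e, (α.comp ι) (pp k (P J)) * ∏ i ∈ J.1, T i
  have h2 : F * ∑ I : Ev e, α (v I) * ∏ i ∈ I.1, T i = 0 := by
    have h3 : F * ∑ I : Ev e, α (v I) * ∏ i ∈ I.1, T i =
        ∑ I : Ev e, α (v I) * ∑ J : Ev e, (∏ i ∈ J.1, T i) * (α.comp ι) (MM k z P J I) := by
      rw [Finset.mul_sum]
      apply Finset.sum_congr rfl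
      intro I _
      rw [vec_MM k z P (α.comp ι) T hT' I]
      change F * _ = α (v I) * (F * _)
      ring
    rw [h3]
    rw [Finset.sum_congr rfl (fun I _ => Finset.mul_sum _ _ _), Finset.sum_comm]
    apply Finset.sum_eq_zero
    intro J _
    have h4 : ∑ I : Ev e, ι (MM k z P J I) * v I = 0 := congrFun hv J
    have h5 : ∑ I : Ev e, α (v I) * ((∏ i ∈ J.1, T i) * (α.comp ι) (MM k z P J I)) =
        (∏ i ∈ J.1, T i) * α (∑ I : Ev e, ι (MM k z P J I) * v I) := by
      rw [map_sum, Finset.mul_sum]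
      apply Finset.sum_congr rfl
      intro I _
      rw [map_mul, RingHom.comp_apply]
      ring
    rw [h5, h4, map_zero, mul_zero]
  rcases mul_eq_zero.1 h2 with h3 | h3
  · have h4 := hLI2 (fun J => ι (pp k (P J))) (by
      rw [← h3]
      apply Finset.sum_congr rfl
      intro J _
      rw [Algebra.smul_def]
      rfl)
    obtain ⟨I, hI⟩ := hP
    apply hI
    apply pp_eq_zero k (hk I)
    apply hι
    rw [map_zero]
    exact h4 I
  · have h4 := hLI2 v (by
      rw [← h3]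
      apply Finset.sum_congr rfl
      intro J _
      rw [Algebra.smul_def])
    exact hv0 (funext h4)

/-- a nonzero algebraic integer has a conjugate of absolute value at least one -/
theorem exists_conj {L : Type} [Field L] [NumberField L] (c : 𝓞 L) (hc : c ≠ 0) :
    ∃ σ : L →+* ℂ, 1 ≤ ‖σ (c : L)‖ := by
  by_contra hcon
  push Not at hcon
  obtain ⟨w⟩ : Nonempty (InfinitePlace L) := inferInstance
  have h1 : ∀ z : InfinitePlace L, z (c : L) < 1 := by
    intro z
    rw [← InfinitePlace.norm_embedding_eq]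
    exact hcon _
  have h2 := InfinitePlace.one_le_of_lt_one (w := w) hc (fun z _ => h1 z)
  exact absurd (h1 w) (not_lt.2 h2)

/-- **a nonzero form does not vanish at a large point** -/
theorem nonv (h : INDP) : NONV := by
  intro e k
  let N := Fintype.card (Ev e)
  refine ⟨N.factorial * ((k + 1) * 5 ^ e) ^ N, (e + 1) * N, ?_⟩
  intro L _ _ z s V B W hB hW hz hzB hs P hP hk hPW hv
  have hBW : 1 ≤ B * W := by nlinarith
  by_cases hV : V = 0
  · rw [hV, Int.cast_zero, abs_zero]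
    positivity
  let Ψ := (MM k z P).det
  have hΨ : Ψ ≠ 0 := det_ne h k z hz P hP hk
  have hev : Ψ.eval (V : 𝓞 L) = 0 := eval_det k z P V s hs hv
  -- the lowest coefficient
  let n := Ψ.natTrailingDegree
  have hn : Ψ.coeff n ≠ 0 := by
    have := trailingCoeff_nonzero_iff_nonzero.2 hΨ
    exact this
  obtain ⟨Φ, hΦ⟩ : X ^ n ∣ Ψ := by
    rw [X_pow_dvd_iff]
    intro d hd
    exact coeff_eq_zero_of_lt_natTrailingDegree hd
  have hVR : (V : 𝓞 L) ≠ 0 := by exact_mod_cast hV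
  have hΦV : Φ.eval (V : 𝓞 L) = 0 := by
    rw [hΦ, eval_mul, eval_pow, eval_X] at hev
    exact (mul_eq_zero.1 hev).resolve_left (pow_ne_zero _ hVR)
  have hΦ0 : Φ.eval 0 = Ψ.coeff n := by
    rw [hΦ, ← coeff_zero_eq_eval_zero]
    have := coeff_X_pow_mul Φ n 0
    rw [zero_add] at this
    exact this.symm
  have hdvd : (V : 𝓞 L) ∣ Ψ.coeff n := by
    have h1 := sub_dvd_eval_sub (V : 𝓞 L) 0 Φ
    rw [sub_zero, hΦV, hΦ0, zero_sub, dvd_neg] at h1
    exact h1
  obtain ⟨c, hc⟩ := hdvd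
  have hc0 : c ≠ 0 := by
    rintro rfl
    exact hn (by rw [hc, mul_zero])
  obtain ⟨σ, hσ⟩ := exists_conj c hc0
  let τ : 𝓞 L →+* ℂ := σ.comp (algebraMap (𝓞 L) L)
  have h1 : |(V : ℝ)| ≤ ‖τ (Ψ.coeff n)‖ := by
    rw [hc, map_mul, norm_mul]
    have h2 : ‖τ (V : 𝓞 L)‖ = |(V : ℝ)| := by
      rw [map_intCast]
      exact Complex.norm_intCast V
    rw [h2]
    have h3 : 1 ≤ ‖τ c‖ := hσ
    nlinarith [abs_nonneg (V : ℝ)]
  refine h1.trans ((coeff_le_l1 τ Ψ n).trans ?_)
  refine (l1_det_le τ (MM k z P) (c := ((k + 1) * W) * (5 * B) ^ e)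
    (fun J I => l1_entry k z P τ hB (fun i => hzB σ i) (fun I j => hPW I j σ) hW J I)).trans ?_
  change (N.factorial : ℝ) * (((k + 1) * W) * (5 * B) ^ e) ^ N ≤ _
  have h9 : (((N.factorial * ((k + 1) * 5 ^ e) ^ N : ℕ) : ℝ)) * (B * W) ^ ((e + 1) * N) =
      (N.factorial : ℝ) * (((k : ℝ) + 1) * 5 ^ e * (B * W) ^ (e + 1)) ^ N := by
    push_cast
    rw [mul_pow _ ((B * W) ^ (e + 1)), ← pow_mul]
    ring
  rw [h9]
  have h2 : ((k + 1) * W) * (5 * B) ^ e ≤ ((k : ℝ) + 1) * 5 ^ e * (B * W) ^ (e + 1) := by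
    have h3 : W * B ^ e ≤ (B * W) ^ (e + 1) := by
      have h4 : (B * W) ^ (e + 1) = (W * B ^ e) * (B * W ^ e) := by ring
      rw [h4]
      have h5 : 1 ≤ W ^ e := one_le_pow₀ hW
      have h6 : 1 ≤ B * W ^ e := by nlinarith
      have h7 : 0 ≤ W * B ^ e := by positivity
      nlinarith
    have h8 : ((k + 1) * W) * (5 * B) ^ e = ((k : ℝ) + 1) * 5 ^ e * (W * B ^ e) := by
      rw [mul_pow]; ring
    rw [h8]
    apply mul_le_mul_of_nonneg_left h3
    positivity
  apply mul_le_mul_of_nonneg_left _ (by positivity)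
  apply pow_le_pow_left₀ _ h2
  positivity

end Pool.Agent.Y584.HY
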